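import Pool.Agent.Helper54.SAW2.Stmts

set_option autoImplicit false

/-!
# Block 11: the near walks and the near walks of positive sign
-/

namespace Pool.Agent.Helper99.SAW2

open Pool.Agent.Helper54.SAW Pool.Agent.Helper54.SAW2

theorem dx_fy (s : St) : dx (fy s) = dx s := by
  revert s
  decide

theorem dy_fy (s : St) : dy (fy s) = -dy s := by
  revert s
  decide

theorem X_mfy (l : List St) : X (l.map fy) = X l := by
  unfold X
  rw [List.map_map]
  congr 1
  apply List.map_congr_left
  intro s _
  exact dx_fy s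

theorem Y_mfy (l : List St) : Y (l.map fy) = -Y l := by
  unfold Y
  rw [List.map_map]
  induction l with
  | nil => simp
  | cons a l ih =>
    rw [List.map_cons, List.sum_cons, ih, List.map_cons, List.sum_cons]
    simp only [Function.comp, dy_fy]
    ring

theorem px_mfy (l : List St) : px (l.map fy) = px l := by
  funext i
  unfold px
  rw [← List.map_take, X_mfy]

theorem py_mfy (l : List St) (i : ℕ) : py (l.map fy) i = -py l i := by
  unfold py
  rw [← List.map_take, Y_mfy]

theorem fy_fy' (s : St) : fy (fy s) = s := by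
  revert s
  decide

theorem mfy_mfy (l : List St) : (l.map fy).map fy = l := by
  rw [List.map_map]
  conv_rhs => rw [← List.map_id l]
  apply List.map_congr_left
  intro s _
  simp [fy_fy']

theorem tip_mfy (n : ℕ) (l : List St) : tip n (l.map fy) = tip n l := by
  unfold tip
  rw [px_mfy]

theorem mfy_mem_SAWs {n : ℕ} {l : List St} (h : l ∈ SAWs n) : l.map fy ∈ SAWs n := by
  rw [mem_SAWs_iff] at h ⊢
  refine ⟨by rw [List.length_map]; exact h.1, ?_⟩
  intro i j hij hj hxy
  rw [px_mfy, py_mfy, py_mfy] at hxy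
  exact h.2 i j hij hj ⟨hxy.1, by omega⟩

theorem near_sub {n M R : ℕ} (hM : 2 * R + 1 ≤ M) {l : List St} (h : l ∈ Near n M R) :
    l ∈ NearP n M R ∨ l.map fy ∈ NearP n M R := by
  classical
  unfold Near at h
  rw [Finset.mem_filter] at h
  obtain ⟨h1, ⟨t, ht, hMt⟩, hR⟩ := h
  obtain ⟨t1, t2, t3⟩ := tip_spec n l
  have hnn := NN_of_mem h1
  obtain ⟨hl, hav⟩ := mem_SAWs_iff.1 h1
  have hR' : |px l n| ≤ (R : ℤ) := by
    rw [px_len hl.le]
    exact hR
  have hR2 := abs_le.1 hR'
  set s := tip n l with hs
  have hMs : (M : ℤ) ≤ px l s := by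
    have e1 : (M : ℤ) ≤ px l t := hMt
    rcases le_or_gt t s with h2 | h2
    · exact e1.trans (t2 t h2)
    · exact e1.trans (t3 t h2 ht).le
  have hM' : (2 * (R : ℤ) + 1) ≤ M := by exact_mod_cast hM
  have hs0 : 0 < s := by
    rcases Nat.eq_zero_or_pos s with h0 | h0
    · rw [h0, px_zero] at hMs
      omega
    · exact h0
  have hsn : s < n := by
    rcases lt_or_eq_of_le t1 with h2 | h2
    · exact h2
    · rw [h2] at hMs
      omega
  have a1 := hnn (s - 1) (by omega)
  have a2 := hnn s hsn
  unfold Stp at a1 a2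
  rw [show s - 1 + 1 = s by omega] at a1
  have b1 := t2 (s - 1) (by omega)
  have b2 := t3 (s + 1) (by omega) (by omega)
  have b3 := hav (s - 1) (s + 1) (by omega) (by omega)
  rcases a1 with ⟨c1, c2 | c2⟩ | ⟨c1, c2⟩
  · right
    rw [mem_NearP, tip_mfy, px_mfy, py_mfy, py_mfy, ← hs]
    exact ⟨mfy_mem_SAWs h1, hMs, hR', by omega⟩
  · left
    rw [mem_NearP, ← hs]
    exact ⟨h1, hMs, hR', by omega⟩
  · exfalso
    apply b3
    rcases a2 with ⟨d1, d2⟩ | ⟨d1, d2⟩
    · omega
    · constructor <;> omega

theorem near : NearS := by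
  classical
  intro n M R hM
  have hsub : Near n M R ⊆ NearP n M R ∪ (NearP n M R).image (List.map fy) := by
    intro l hl
    rw [Finset.mem_union, Finset.mem_image]
    rcases near_sub hM hl with h | h
    · exact Or.inl h
    · exact Or.inr ⟨l.map fy, h, mfy_mfy l⟩
  calc (Near n M R).card ≤ (NearP n M R ∪ (NearP n M R).image (List.map fy)).card :=
        Finset.card_le_card hsub
    _ ≤ (NearP n M R).card + ((NearP n M R).image (List.map fy)).card :=
        Finset.card_union_le _ _
    _ ≤ (NearP n M R).card + (NearP n M R).card := by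
        have := Finset.card_image_le (s := NearP n M R) (f := List.map fy)
        omega
    _ = 2 * (NearP n M R).card := by ring

end Pool.Agent.Helper99.SAW2
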